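import Pool.Agent.U409.OA.Stm3

/-!
# Project OA (helper409), package IC: the identity (I) when the first two parameters have the product `z^2`
-/

set_option autoImplicit false

namespace Pool.Agent.U394.OA

open Pool.Agent.U409.OA

lemma alg {z x y Q Q' S2 P0 P1 P2 P3 a b g : ℂ} {m : ℕ} (hz2 : z - 2 ≠ 0) (hx : x ≠ 0) (hy : y ≠ 0)
    (hxy : x * y = z ^ 2) (key : S2 * Q' * (z ^ 2) ^ (2 * m + 1) = Q)
    (hI : a * P1 + P0 * b * P2 = z ^ (2 * m + 1) / (z - 2) * P3 * g) :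
    (x + z ^ 2) * (y + z ^ 2) * ((z - 2) * Q) * a * ((1 + z ^ 2 * x) * ((1 + z ^ 2 * y) * P1)) +
      (x ^ (2 * (m + 1)) * (y ^ (2 * (m + 1)) * (P0 * S2))) *
        ((x⁻¹ + z ^ 2) * (y⁻¹ + z ^ 2) * ((z - 2) * Q') * b) * ((x + z ^ 2) * ((y + z ^ 2) * P2)) =
    z ^ (2 * (m + 1) + 1) / (z - 2) * ((1 + x) * ((1 + y) * P3)) *
      ((z - 2) * (Q * ((z ^ 2 * (x * -1) - 1) * (z ^ 2 * (-1 * y) - 1))) * g) := by
  have h1 : x ^ (2 * (m + 1)) * y ^ (2 * (m + 1)) = (z ^ 2) ^ (2 * m + 1) * z ^ 2 := by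
    rw [← mul_pow, hxy]
    ring
  have h2 : z ^ 2 * ((x⁻¹ + z ^ 2) * (y⁻¹ + z ^ 2)) = (1 + z ^ 2 * x) * (1 + z ^ 2 * y) := by
    rw [← hxy]
    field_simp
  have h3 : (x + z ^ 2) * (y + z ^ 2) = z ^ 2 * ((1 + x) * (1 + y)) := by
    rw [← hxy]
    ring
  have hT : (x ^ (2 * (m + 1)) * (y ^ (2 * (m + 1)) * (P0 * S2))) *
        ((x⁻¹ + z ^ 2) * (y⁻¹ + z ^ 2) * ((z - 2) * Q') * b) * ((x + z ^ 2) * ((y + z ^ 2) * P2)) =
      Q * ((1 + z ^ 2 * x) * (1 + z ^ 2 * y)) *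
        (P0 * (z - 2) * b * ((x + z ^ 2) * (y + z ^ 2)) * P2) := by
    calc (x ^ (2 * (m + 1)) * (y ^ (2 * (m + 1)) * (P0 * S2))) *
        ((x⁻¹ + z ^ 2) * (y⁻¹ + z ^ 2) * ((z - 2) * Q') * b) * ((x + z ^ 2) * ((y + z ^ 2) * P2))
        = (x ^ (2 * (m + 1)) * y ^ (2 * (m + 1))) * ((x⁻¹ + z ^ 2) * (y⁻¹ + z ^ 2)) * (S2 * Q') *
          (P0 * (z - 2) * b * ((x + z ^ 2) * (y + z ^ 2)) * P2) := by ring
      _ = ((z ^ 2) ^ (2 * m + 1) * z ^ 2) * ((x⁻¹ + z ^ 2) * (y⁻¹ + z ^ 2)) * (S2 * Q') *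
          (P0 * (z - 2) * b * ((x + z ^ 2) * (y + z ^ 2)) * P2) := by rw [h1]
      _ = (S2 * Q' * (z ^ 2) ^ (2 * m + 1)) * (z ^ 2 * ((x⁻¹ + z ^ 2) * (y⁻¹ + z ^ 2))) *
          (P0 * (z - 2) * b * ((x + z ^ 2) * (y + z ^ 2)) * P2) := by ring
      _ = _ := by rw [key, h2]
  rw [hT]
  calc (x + z ^ 2) * (y + z ^ 2) * ((z - 2) * Q) * a * ((1 + z ^ 2 * x) * ((1 + z ^ 2 * y) * P1)) +
        Q * ((1 + z ^ 2 * x) * (1 + z ^ 2 * y)) *
          (P0 * (z - 2) * b * ((x + z ^ 2) * (y + z ^ 2)) * P2)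
      = (z - 2) * Q * ((x + z ^ 2) * (y + z ^ 2)) * ((1 + z ^ 2 * x) * (1 + z ^ 2 * y)) *
          (a * P1 + P0 * b * P2) := by ring
    _ = (z - 2) * Q * (z ^ 2 * ((1 + x) * (1 + y))) * ((1 + z ^ 2 * x) * (1 + z ^ 2 * y)) *
          (z ^ (2 * m + 1) / (z - 2) * P3 * g) := by rw [hI, h3]
    _ = _ := by
        rw [show 2 * (m + 1) + 1 = 2 * m + 1 + 2 by ring, pow_add]
        field_simp
        ring

lemma key_prod {z x y : ℂ} (hx : x ≠ 0) (hy : y ≠ 0) (hxy : x * y = z ^ 2) (v : List ℂ)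
    (hv : ∀ t ∈ v, t ≠ 0) :
    (v.map fun t => t ^ 2).prod *
      ((v.map fun y => y⁻¹).map fun k => (z ^ 2 - x⁻¹ * k) * (z ^ 2 - y⁻¹ * k)).prod *
      (z ^ 2) ^ v.length =
    (v.map fun k => (z ^ 2 * (x * k) - 1) * (z ^ 2 * (k * y) - 1)).prod := by
  induction v with
  | nil => simp
  | cons t v ih =>
    have ht : t ≠ 0 := hv t (by simp)
    have ih' := ih fun s hs => hv s (by simp [hs])
    have h1 : t ^ 2 * ((z ^ 2 - x⁻¹ * t⁻¹) * (z ^ 2 - y⁻¹ * t⁻¹)) * z ^ 2 =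
        (z ^ 2 * (x * t) - 1) * (z ^ 2 * (t * y) - 1) := by
      rw [← hxy]
      field_simp
    rw [List.map_cons, List.map_cons, List.map_cons, List.map_cons, List.prod_cons, List.prod_cons,
      List.prod_cons, List.length_cons, ← ih', ← h1, pow_succ]
    ring

theorem t_IC (hP : S_PERM) (hR1 : S_R1) (hR2 : S_R2) : S_IC := by
  intro z hz m x y v hlen hv hxy hI
  have hz0 : z ≠ 0 := by
    rintro rfl
    norm_num at hz
  have hz2 : z - 2 ≠ 0 := by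
    intro h
    have h2 : z = 2 := sub_eq_zero.1 h
    rw [h2] at hz
    norm_num at hz
  have hx : x ≠ 0 := by
    rintro rfl
    rw [zero_mul] at hxy
    exact pow_ne_zero 2 hz0 hxy.symm
  have hy : y ≠ 0 := by
    rintro rfl
    rw [mul_zero] at hxy
    exact pow_ne_zero 2 hz0 hxy.symm
  have hinv : z ^ 2 * (x⁻¹ * y⁻¹) = 1 := by
    rw [← mul_inv, hxy]
    exact mul_inv_cancel₀ (pow_ne_zero 2 hz0)
  have hA1 : A z (x :: y :: v) = (x + z ^ 2) * (y + z ^ 2) *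
      ((z - 2) * (v.map fun k => (z ^ 2 * (x * k) - 1) * (z ^ 2 * (k * y) - 1)).prod) * A z v := by
    have hp : (x :: y :: v).Perm (x :: (v ++ [y])) :=
      List.Perm.cons x (List.perm_append_singleton y v).symm
    rw [(hP z hz _ _ hp).2]
    exact (hR1 z x y v hxy).2
  have hA2 := (hR2 z hz x⁻¹ y⁻¹ (v.map fun y => y⁻¹) hinv).2
  have hG : G z ((x :: y :: v) ++ [-1]) = (z - 2) *
      ((v ++ [-1]).map fun k => (z ^ 2 * (x * k) - 1) * (z ^ 2 * (k * y) - 1)).prod *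
      G z (v ++ [-1]) := by
    have hp : ((x :: y :: v) ++ [-1]).Perm (x :: ((v ++ [-1]) ++ [y])) := by
      rw [List.cons_append, List.cons_append]
      exact List.Perm.cons x (List.perm_append_singleton y (v ++ [-1])).symm
    rw [(hP z hz _ _ hp).1]
    exact (hR1 z x y (v ++ [-1]) hxy).1
  have hkey := key_prod hx hy hxy v hv
  rw [hlen] at hkey
  have hP0 : (v.map fun t => t ^ (2 * (m + 1))).prod =
      (v.map fun t => t ^ (2 * m)).prod * (v.map fun t => t ^ 2).prod := by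
    rw [← List.prod_map_mul]
    congr 1
    refine List.map_congr_left fun t _ => ?_
    rw [mul_add, pow_add]
  unfold I1 at hI ⊢
  rw [hG, hA1]
  simp only [List.map_cons, List.prod_cons, List.map_append, List.map_nil, List.prod_append,
    List.prod_nil, mul_one] at hA2 hkey ⊢
  rw [hA2, hP0]
  exact alg hz2 hx hy hxy hkey hI

end Pool.Agent.U394.OA
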